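import Pool.Agent.H770BR.Defs
set_option autoImplicit false

namespace Pool.Agent.H214R3.BrandtInv
open Function Pool.Agent.H502.Bk Pool.Agent.H502.Bk.W Pool.Agent.H770BR

theorem ic_of_inv {S : Type} [Semigroup S] (h : InvSg S) : IC S := by
  have huniq : ∀ a b b' : S, (a * b * a = a ∧ b * a * b = b) →
      (a * b' * a = a ∧ b' * a * b' = b') → b = b' := by
    intro a b b' hb hb'
    obtain ⟨c, hc, hc'⟩ := h a
    rw [hc' b hb, hc' b' hb']
  have hidem : ∀ e f : S, e * e = e → f * f = f → (e * f) * (e * f) = e * f := by
    intro e f he hf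
    obtain ⟨x, ⟨hx1, hx2⟩, -⟩ := h (e * f)
    have hy : f * x * e = x := by
      refine huniq (e * f) _ _ ⟨?_, ?_⟩ ⟨hx1, hx2⟩
      · calc e * f * (f * x * e) * (e * f) = e * (f * f) * x * (e * e) * f := by
              simp only [mul_assoc]
          _ = e * f * x * (e * f) := by rw [he, hf]; simp only [mul_assoc]
          _ = e * f := hx1
      · calc f * x * e * (e * f) * (f * x * e) = f * (x * ((e * e) * (f * f)) * x) * e := by
              simp only [mul_assoc]
          _ = f * (x * (e * f) * x) * e := by rw [he, hf]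
          _ = f * x * e := by rw [hx2]
    have hxx : x * x = x := by
      calc x * x = (f * x * e) * (f * x * e) := by rw [hy]
        _ = f * (x * (e * f) * x) * e := by simp only [mul_assoc]
        _ = f * x * e := by rw [hx2]
        _ = x := hy
    have hef : e * f = x := by
      refine huniq x _ _ ⟨hx2, hx1⟩ ⟨?_, ?_⟩
      · rw [hxx, hxx]
      · rw [hxx, hxx]
    rw [hef, hxx]
  intro e f he hf
  have h1 := hidem e f he hf
  have h2 := hidem f e hf he
  refine huniq (e * f) _ _ ⟨?_, ?_⟩ ⟨?_, ?_⟩
  · rw [h1, h1]
  · rw [h1, h1]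
  · calc e * f * (f * e) * (e * f) = e * (f * f) * (e * e) * f := by simp only [mul_assoc]
      _ = e * f * (e * f) := by rw [he, hf]; simp only [mul_assoc]
      _ = e * f := h1
  · calc f * e * (e * f) * (f * e) = f * (e * e) * (f * f) * e := by simp only [mul_assoc]
      _ = f * e * (f * e) := by rw [he, hf]; simp only [mul_assoc]
      _ = f * e := h2

theorem npw_right {S : Type} [Semigroup S] {a r : S} (h : a * r = a) (k : ℕ) :
    a * npw r k = a := by
  induction k with
  | zero => exact h
  | succ k ih =>
    show a * (npw r k * r) = a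
    rw [← mul_assoc, ih, h]

theorem inv_of_ic {S : Type} [Semigroup S] [Finite S] {z : S} (h : ZS z) (hI : IC S) :
    InvSg S := by
  have hex : ∀ a : S, ∃ c, a * c * a = a := by
    intro a
    by_cases ha : a = z
    · exact ⟨z, by rw [ha, (h.1 z).1, (h.1 z).1]⟩
    · obtain ⟨b, hb⟩ := h.exists_right ha
      obtain ⟨c, hc⟩ := h.right_inv hb
      have hr : a * (b * c) = a := by rw [← mul_assoc]; exact hc
      have hne : a * (b * c) ≠ z := by rw [hr]; exact ha
      obtain ⟨d, hd⟩ := h.left_inv hne
      refine ⟨d, ?_⟩
      rw [hr] at hd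
      rw [mul_assoc, hd, hr]
  intro a
  obtain ⟨c, hc⟩ := hex a
  refine ⟨c * a * c, ⟨?_, ?_⟩, ?_⟩
  · calc a * (c * a * c) * a = (a * c * a) * c * a := by simp only [mul_assoc]
      _ = a := by rw [hc, hc]
  · calc c * a * c * a * (c * a * c) = c * (a * c * a) * c * a * c := by simp only [mul_assoc]
      _ = c * a * c * a * c := by rw [hc]
      _ = c * (a * c * a) * c := by simp only [mul_assoc]
      _ = c * a * c := by rw [hc]
  · have huniq : ∀ a b b' : S, (a * b * a = a ∧ b * a * b = b) →
        (a * b' * a = a ∧ b' * a * b' = b') → b = b' := by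
      intro a b b' hb hb'
      have i1 : (a * b) * (a * b) = a * b := by rw [← mul_assoc, hb.1]
      have i2 : (a * b') * (a * b') = a * b' := by rw [← mul_assoc, hb'.1]
      have i3 : (b * a) * (b * a) = b * a := by rw [← mul_assoc, hb.2]
      have i4 : (b' * a) * (b' * a) = b' * a := by rw [← mul_assoc, hb'.2]
      have e1 : b = b * a * b' := by
        calc b = b * a * b := hb.2.symm
          _ = b * (a * b' * a) * b := by rw [hb'.1]
          _ = b * ((a * b') * (a * b)) := by simp only [mul_assoc]
          _ = b * ((a * b) * (a * b')) := by rw [hI _ _ i2 i1]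
          _ = (b * a * b) * a * b' := by simp only [mul_assoc]
          _ = b * a * b' := by rw [hb.2]
      have e2 : b' = b * a * b' := by
        calc b' = b' * a * b' := hb'.2.symm
          _ = b' * (a * b * a) * b' := by rw [hb.1]
          _ = ((b' * a) * (b * a)) * b' := by simp only [mul_assoc]
          _ = ((b * a) * (b' * a)) * b' := by rw [hI _ _ i4 i3]
          _ = b * a * (b' * a * b') := by simp only [mul_assoc]
          _ = b * a * b' := by rw [hb'.2]
      rw [e1]; exact e2.symm
    intro b hb
    refine huniq a b _ hb ⟨?_, ?_⟩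
    · calc a * (c * a * c) * a = (a * c * a) * c * a := by simp only [mul_assoc]
        _ = a := by rw [hc, hc]
    · calc c * a * c * a * (c * a * c) = c * (a * c * a) * c * a * c := by simp only [mul_assoc]
        _ = c * a * c * a * c := by rw [hc]
        _ = c * (a * c * a) * c := by simp only [mul_assoc]
        _ = c * a * c := by rw [hc]

theorem tInv : T_inv := by
  intro S _ _ h0
  obtain ⟨z, hz⟩ := zs_of_zeroSimple h0
  exact ⟨ic_of_inv, inv_of_ic hz⟩

end Pool.Agent.H214R3.BrandtInv
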