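import Pool.Agent.H197R3.SF.Stmts

/-! TASK MUL of project H197-SF -/

set_option autoImplicit false

namespace Pool.Agent.H214R3.SFMul

open MeasureTheory Filter Topology Set
open scoped Pointwise Matrix ComplexConjugate
open Pool.Agent.H197R3.SF

theorem wt_ne (σ t : ℝ) : wt σ t ≠ 0 := by
  unfold wt
  exact_mod_cast (Real.exp_pos _).ne'

theorem norm_wt (σ t : ℝ) : ‖wt σ t‖ = Real.exp (σ * |t|) := by
  unfold wt
  rw [Complex.norm_real, Real.norm_of_nonneg (Real.exp_pos _).le]

theorem one_le_norm_wt {σ : ℝ} (hσ : 0 < σ) (t : ℝ) : 1 ≤ ‖wt σ t‖ := by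
  rw [norm_wt]
  exact Real.one_le_exp (by positivity)

theorem norm_ch (ω t : ℝ) : ‖ch ω t‖ = 1 := by
  unfold ch
  have : -((ω : ℂ) * (t : ℂ) * Complex.I) = ((-(ω * t) : ℝ) : ℂ) * Complex.I := by
    push_cast; ring
  rw [this]
  exact Complex.norm_exp_ofReal_mul_I _

theorem cont_wt (σ : ℝ) : Continuous (wt σ) := by
  unfold wt
  fun_prop

theorem cont_ch (ω : ℝ) : Continuous (ch ω) := by
  unfold ch
  fun_prop

theorem integ_ch {σ : ℝ} (hσ : 0 < σ) {f : ℝ → ℂ} (hf : Integrable (fun t => f t * wt σ t)) (ω : ℝ) :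
    Integrable (fun t => f t * ch ω t) := by
  have h1 : (fun t => f t * ch ω t) = fun t => (f t * wt σ t) * ((wt σ t)⁻¹ * ch ω t) := by
    funext t
    have := wt_ne σ t
    field_simp
  have hm : AEStronglyMeasurable (fun t => f t * ch ω t) volume := by
    rw [h1]
    refine hf.aestronglyMeasurable.mul ?_
    exact (((cont_wt σ).inv₀ (wt_ne σ)).mul (cont_ch ω)).aestronglyMeasurable
  refine hf.mono hm (Eventually.of_forall fun t => ?_)
  rw [norm_mul, norm_mul, norm_ch, mul_one]
  exact le_mul_of_one_le_right (norm_nonneg _) (one_le_norm_wt hσ t)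

theorem t : TaskMul := by
  intro LL AL AA σ E K E' K' F G hσ hF hG
  obtain ⟨f, c, hf⟩ := hF
  obtain ⟨g, d, hg⟩ := hG
  obtain ⟨h1i, h1e⟩ := LL σ f g hσ hf.intg hg.intg
  obtain ⟨k1, k1i, k1s, k1e⟩ := AL σ c g K E' hσ hf.summ hg.intg hf.cK hg.fE
  obtain ⟨k2, k2i, k2s, k2e⟩ := AL σ d f K' E hσ hg.summ hf.intg hg.cK hf.fE
  obtain ⟨es, ee⟩ := AA σ c d hσ hf.summ hg.summ
  refine ⟨fun t => (∫ s, f s * g (t - s)) + k1 t + k2 t, fun t => ∑' s : ℝ, c s * d (t - s),
    ⟨?_, es, ?_, ?_, ?_⟩⟩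
  · have := (h1i.add k1i).add k2i
    refine this.congr (Eventually.of_forall fun t => ?_)
    simp only [Pi.add_apply]
    ring
  · intro t ht
    have ht1 : t ∉ E + E' := fun h => ht (Or.inl (Or.inl h))
    have ht2 : t ∉ K + E' := fun h => ht (Or.inl (Or.inr h))
    have ht3 : t ∉ K' + E := fun h => ht (Or.inr h)
    have h0 : ∀ s, f s * g (t - s) = 0 := by
      intro s
      by_contra hne
      rcases mul_ne_zero_iff.1 hne with ⟨ha, hb⟩
      have hs : s ∈ E := by
        by_contra hs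
        exact ha (hf.fE s hs)
      have hts : t - s ∈ E' := by
        by_contra hts
        exact hb (hg.fE _ hts)
      exact ht1 ⟨s, hs, t - s, hts, by simp⟩
    simp only [h0, k1s t ht2, k2s t ht3, integral_zero, add_zero]
  · intro t ht
    have h0 : ∀ s, c s * d (t - s) = 0 := by
      intro s
      by_contra hne
      rcases mul_ne_zero_iff.1 hne with ⟨ha, hb⟩
      have hs : s ∈ K := by
        by_contra hs
        exact ha (hf.cK s hs)
      have hts : t - s ∈ K' := by
        by_contra hts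
        exact hb (hg.cK _ hts)
      exact ht ⟨s, hs, t - s, hts, by simp⟩
    simp only [h0, tsum_zero]
  · intro ω
    rw [ee ω]
    have hsum : ∫ t, ((∫ s, f s * g (t - s)) + k1 t + k2 t) * ch ω t
        = (∫ t, (∫ s, f s * g (t - s)) * ch ω t) + (∫ t, k1 t * ch ω t) + ∫ t, k2 t * ch ω t := by
      have a1 := integ_ch hσ h1i ω
      have a2 := integ_ch hσ k1i ω
      have a3 := integ_ch hσ k2i ω
      have a12 : Integrable (fun t => (∫ s, f s * g (t - s)) * ch ω t + k1 t * ch ω t) volume :=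
        a1.add a2
      rw [← integral_add a1 a2, ← integral_add a12 a3]
      refine integral_congr_ae (Eventually.of_forall fun t => ?_)
      ring
    rw [hsum, h1e ω, k1e ω, k2e ω]
    simp only [hf.eq ω, hg.eq ω]
    ring

end Pool.Agent.H214R3.SFMul
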